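import Pool.Agent.H76.SF.Stm2

set_option autoImplicit false

namespace H99.SF

open Finset Classical H76.SF Pool.Agent.Results.MP_705b7e_co.StarForestBounds

lemma spl {V : Type} [Fintype V] (G : SimpleGraph V) (v : V)
    [DecidablePred (fun x => G.Adj v x)] [DecidablePred (fun x => Gᶜ.Adj v x)] :
    (univ.filter (fun x => G.Adj v x)).card + (univ.filter (fun x => Gᶜ.Adj v x)).card + 1
      = Fintype.card V := by
  have h1 := card_filter_add_card_filter_not (s := (univ : Finset V)) (fun x => G.Adj v x)
  have h2 : (univ : Finset V).filter (fun x => ¬ G.Adj v x)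
      = (univ.filter (fun x => Gᶜ.Adj v x)) ∪ {v} := by
    ext x
    simp only [mem_filter, mem_union, mem_singleton, mem_univ, true_and, SimpleGraph.compl_adj]
    constructor
    · intro hn
      by_cases hv : x = v
      · exact Or.inr hv
      · exact Or.inl ⟨fun h => hv h.symm, hn⟩
    · rintro (⟨-, hn⟩ | rfl)
      · exact hn
      · exact G.loopless.irrefl x
  have h3 : Disjoint (univ.filter (fun x => Gᶜ.Adj v x)) ({v} : Finset V) := by
    rw [disjoint_singleton_right, mem_filter]
    exact fun h => Gᶜ.loopless.irrefl v h.2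
  rw [h2, card_union_of_disjoint h3, card_singleton, card_univ] at h1
  omega

lemma side {N k : ℕ} {s : ℕ → ℕ} (R : SimpleGraph (Fin N)) (S : Finset (Fin N)) {a t : ℕ}
    (φ : SimpleGraph.Copy (starForest k s) R) (hT : (univ \ S).card ≤ s 0 + t)
    (hdeg : ∀ v ∈ S, (S.filter (fun x => R.Adj v x)).card ≤ a) (hs : ∀ i < k, a < s i)
    (hk2 : a + t + 2 ≤ k) (hc : φ ⟨⟨0, by omega⟩, none⟩ ∈ S) : False := by
  have hinj : Function.Injective (fun x => φ x) := φ.injective
  have hadj : ∀ (i : Fin k) (x : Fin (s i)), R.Adj (φ ⟨i, none⟩) (φ ⟨i, some x⟩) := by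
    intro i x
    exact φ.toHom.map_adj (starForest_adj k s i _)
  obtain ⟨L, hL⟩ : ∃ L : Fin k → Finset (Fin N), ∀ i, L i = univ.image (fun x : Fin (s i) => φ ⟨i, some x⟩) :=
    ⟨_, fun i => rfl⟩
  have hLc : ∀ i, (L i).card = s i := by
    intro i
    have hli : Function.Injective (fun x : Fin (s i) => (φ ⟨i, some x⟩ : Fin N)) := by
      intro x y hxy
      have := hinj hxy
      simpa using this
    rw [hL, card_image_of_injective _ hli, card_univ, Fintype.card_fin]
  have hLS : ∀ i, φ ⟨i, none⟩ ∈ S → ((L i) ∩ S).card ≤ a := by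
    intro i hi
    refine le_trans (card_le_card ?_) (hdeg _ hi)
    intro x hx
    rw [mem_inter, hL, mem_image] at hx
    obtain ⟨⟨y, -, rfl⟩, hxS⟩ := hx
    rw [mem_filter]
    exact ⟨hxS, hadj i y⟩
  have hex : ∀ i : Fin k, ∃ o : Option (Fin (s i)), φ ⟨i, o⟩ ∉ S := by
    intro i
    by_cases hi : φ ⟨i, none⟩ ∈ S
    · have h1 := hLS i hi
      have h2 := card_inter_add_card_sdiff (L i) S
      have h3 := hs i i.2
      rw [hLc] at h2
      obtain ⟨x, hx⟩ : (L i \ S).Nonempty := by rw [← card_pos]; omega
      rw [mem_sdiff, hL, mem_image] at hx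
      obtain ⟨⟨y, -, rfl⟩, hxS⟩ := hx
      exact ⟨some y, hxS⟩
    · exact ⟨none, hi⟩
  choose o ho using hex
  obtain ⟨i0, hi0⟩ : ∃ i0 : Fin k, i0 = ⟨0, by omega⟩ := ⟨_, rfl⟩
  rw [← hi0] at hc
  have hs0 : s i0 = s 0 := by rw [hi0]
  have h1 := hLS i0 hc
  have h2 := card_inter_add_card_sdiff (L i0) S
  rw [hLc, hs0] at h2
  have h3 : ((univ \ S) \ L i0).card + (L i0 \ S).card = (univ \ S).card := by
    rw [← card_union_of_disjoint]
    · congr 1
      ext x
      simp only [mem_union, mem_sdiff, mem_univ, true_and]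
      tauto
    · rw [disjoint_left]
      intro x hx hx'
      rw [mem_sdiff] at hx hx'
      exact hx.2 hx'.1
  have h4 : ((univ : Finset (Fin k)).erase i0).card ≤ ((univ \ S) \ L i0).card := by
    apply card_le_card_of_injOn (fun i => φ ⟨i, o i⟩)
    · intro i hi
      have hi' : i ≠ i0 := by simpa using hi
      simp only [coe_sdiff, Set.mem_sdiff, mem_coe, mem_univ, true_and]
      refine ⟨ho i, ?_⟩
      rw [hL, mem_image]
      rintro ⟨y, -, hy⟩
      have := hinj hy
      exact hi' (congrArg Sigma.fst this).symm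
    · intro i _ j _ hij
      have := hinj hij
      exact congrArg Sigma.fst this
  rw [card_erase_of_mem (mem_univ _), card_univ, Fintype.card_fin] at h4
  have h5 := hs 0 (by omega)
  omega

/-- the red graph -/
def joinG {A B : Type} (H : SimpleGraph A) (K : SimpleGraph B) : SimpleGraph (A ⊕ B) where
  Adj x y := match x, y with
    | .inl u, .inl v => H.Adj u v
    | .inr u, .inr v => K.Adj u v
    | .inl _, .inr _ => True
    | .inr _, .inl _ => True
  symm := ⟨by
    rintro (u | u) (v | v) h
    · exact h.symm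
    · trivial
    · trivial
    · exact h.symm⟩
  loopless := ⟨by
    rintro (u | u) h
    · exact H.loopless.irrefl u h
    · exact K.loopless.irrefl u h⟩

theorem LOG_proved (hREG : S_REG) : S_LOG := by
  intro k s a b hk hs hea heb hA
  have hn := hs 0 (by omega)
  obtain ⟨n, hnd⟩ : ∃ n, n = s 0 := ⟨_, rfl⟩
  rw [← hnd] at hn hea heb hA
  obtain ⟨H, hH⟩ := hREG (n + a) a (by omega) hea
  obtain ⟨K, hK⟩ := hREG (n + b) b (by omega) heb
  have hN : 2 * n + a + b = (n + a) + (n + b) := by ring
  obtain ⟨e⟩ : Nonempty (Fin (2 * n + a + b) ≃ Fin (n + a) ⊕ Fin (n + b)) :=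
    ⟨(finCongr hN).trans finSumFinEquiv.symm⟩
  obtain ⟨R, hR⟩ : ∃ R : SimpleGraph (Fin (2 * n + a + b)), R = (joinG H K).comap e := ⟨_, rfl⟩
  have hRadj : ∀ x y, R.Adj x y ↔ (joinG H K).Adj (e x) (e y) := by
    intro x y; rw [hR]; rfl
  obtain ⟨U, hU⟩ : ∃ U : Finset (Fin (2 * n + a + b)), U = (univ : Finset (Fin (n + a))).image
    (fun y => e.symm (.inl y)) := ⟨_, rfl⟩
  obtain ⟨W, hW⟩ : ∃ W : Finset (Fin (2 * n + a + b)), W = (univ : Finset (Fin (n + b))).image
    (fun y => e.symm (.inr y)) := ⟨_, rfl⟩
  have hUc : U.card = n + a := by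
    rw [hU, card_image_of_injective, card_univ, Fintype.card_fin]
    exact e.symm.injective.comp Sum.inl_injective
  have hWc : W.card = n + b := by
    rw [hW, card_image_of_injective, card_univ, Fintype.card_fin]
    exact e.symm.injective.comp Sum.inr_injective
  have hUs : (univ \ U).card ≤ s 0 + b := by
    rw [card_sdiff_of_subset (subset_univ U), card_univ, Fintype.card_fin]
    omega
  have hWs : (univ \ W).card ≤ s 0 + a := by
    rw [card_sdiff_of_subset (subset_univ W), card_univ, Fintype.card_fin]
    omega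
  have hUdeg : ∀ v ∈ U, (U.filter (fun x => R.Adj v x)).card ≤ a := by
    intro v hv
    rw [hU, mem_image] at hv
    obtain ⟨u, -, rfl⟩ := hv
    have h1 : U.filter (fun x => R.Adj (e.symm (.inl u)) x) ⊆
        (univ.filter (fun y => H.Adj u y)).image (fun y => e.symm (.inl y)) := by
      intro x hx
      rw [mem_filter, hU, mem_image] at hx
      obtain ⟨⟨y, -, rfl⟩, hxy⟩ := hx
      rw [hRadj, e.apply_symm_apply, e.apply_symm_apply] at hxy
      rw [mem_image]
      exact ⟨y, by rw [mem_filter]; exact ⟨mem_univ _, hxy⟩, rfl⟩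
    exact (card_le_card h1).trans (card_image_le.trans (hH u).le)
  have hWdeg : ∀ v ∈ W, (W.filter (fun x => R.Adj v x)).card ≤ b := by
    intro v hv
    rw [hW, mem_image] at hv
    obtain ⟨u, -, rfl⟩ := hv
    have h1 : W.filter (fun x => R.Adj (e.symm (.inr u)) x) ⊆
        (univ.filter (fun y => K.Adj u y)).image (fun y => e.symm (.inr y)) := by
      intro x hx
      rw [mem_filter, hW, mem_image] at hx
      obtain ⟨⟨y, -, rfl⟩, hxy⟩ := hx
      rw [hRadj, e.apply_symm_apply, e.apply_symm_apply] at hxy
      rw [mem_image]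
      exact ⟨y, by rw [mem_filter]; exact ⟨mem_univ _, hxy⟩, rfl⟩
    exact (card_le_card h1).trans (card_image_le.trans (hK u).le)
  have hcase : ∀ v, v ∈ U ∨ v ∈ W := by
    intro v
    rcases hv : e v with y | y
    · left
      rw [hU, mem_image]
      exact ⟨y, mem_univ _, by rw [← hv, e.symm_apply_apply]⟩
    · right
      rw [hW, mem_image]
      exact ⟨y, mem_univ _, by rw [← hv, e.symm_apply_apply]⟩
  have hblue : ∀ v, (univ.filter (fun x => Rᶜ.Adj v x)).card < n := by
    intro v
    rcases hv : e v with u | u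
    · have h1 : univ.filter (fun x => Rᶜ.Adj v x) ⊆
          (univ.filter (fun y => Hᶜ.Adj u y)).image (fun y => e.symm (.inl y)) := by
        intro x hx
        rw [mem_filter, SimpleGraph.compl_adj, hRadj, hv] at hx
        obtain ⟨-, hne, hna⟩ := hx
        rcases hx' : e x with y | y
        · rw [mem_image]
          refine ⟨y, ?_, by rw [← hx', e.symm_apply_apply]⟩
          rw [mem_filter, SimpleGraph.compl_adj]
          refine ⟨mem_univ _, ?_, ?_⟩
          · rintro rfl
            exact hne (e.injective (hv.trans hx'.symm))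
          · intro h
            rw [hx'] at hna
            exact hna h
        · rw [hx'] at hna
          exact absurd trivial hna
      have h2 := spl H u
      rw [hH u, Fintype.card_fin] at h2
      have h3 := (card_le_card h1).trans card_image_le
      omega
    · have h1 : univ.filter (fun x => Rᶜ.Adj v x) ⊆
          (univ.filter (fun y => Kᶜ.Adj u y)).image (fun y => e.symm (.inr y)) := by
        intro x hx
        rw [mem_filter, SimpleGraph.compl_adj, hRadj, hv] at hx
        obtain ⟨-, hne, hna⟩ := hx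
        rcases hx' : e x with y | y
        · rw [hx'] at hna
          exact absurd trivial hna
        · rw [mem_image]
          refine ⟨y, ?_, by rw [← hx', e.symm_apply_apply]⟩
          rw [mem_filter, SimpleGraph.compl_adj]
          refine ⟨mem_univ _, ?_, ?_⟩
          · rintro rfl
            exact hne (e.injective (hv.trans hx'.symm))
          · intro h
            rw [hx'] at hna
            exact hna h
      have h2 := spl K u
      rw [hK u, Fintype.card_fin] at h2
      have h3 := (card_le_card h1).trans card_image_le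
      omega
  rcases hA R with hφ | hφ
  · obtain ⟨φ⟩ := hφ
    rcases hcase (φ ⟨⟨0, by omega⟩, none⟩) with hc | hc
    · exact side R U φ hUs hUdeg (fun i hi => (hs i hi).1) hk hc
    · exact side R W φ hWs hWdeg (fun i hi => (hs i hi).2) (by omega) hc
  · obtain ⟨φ⟩ := hφ
    obtain ⟨i0, hi0⟩ : ∃ i0 : Fin k, i0 = ⟨0, by omega⟩ := ⟨_, rfl⟩
    have hs0 : s i0 = n := by rw [hi0]; exact hnd.symm
    have hli : Function.Injective (fun x : Fin (s i0) => (φ ⟨i0, some x⟩ : Fin (2 * n + a + b))) := by
      intro x y hxy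
      have := φ.injective hxy
      simpa using this
    have h1 : (univ.image (fun x : Fin (s i0) => (φ ⟨i0, some x⟩ : Fin (2 * n + a + b)))).card = n := by
      rw [card_image_of_injective _ hli, card_univ, Fintype.card_fin, hs0]
    have h2 : univ.image (fun x : Fin (s i0) => (φ ⟨i0, some x⟩ : Fin (2 * n + a + b))) ⊆
        univ.filter (fun x => Rᶜ.Adj (φ ⟨i0, none⟩) x) := by
      intro x hx
      rw [mem_image] at hx
      obtain ⟨y, -, rfl⟩ := hx
      rw [mem_filter]
      exact ⟨mem_univ _, φ.toHom.map_adj (starForest_adj k s i0 _)⟩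
    have h3 := card_le_card h2
    have h4 := hblue (φ ⟨i0, none⟩)
    omega

end H99.SF
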